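import Pool.Agent.H958R2.GK.Stubs

set_option autoImplicit false

/-!
# Graphs of maximum degree at most `D` embed into `D`-regular graphs of the same girth

Consequence: if all 4-regular graphs of large girth are 3-colourable, then for every `k ≥ 4` all graphs
of maximum degree at most `k` and large girth are `(k-1)`-colourable.
-/

open Finset

namespace Pool.Agent.H195.GK

/-! ## A finite group generated by involutions without short relations -/

section Tree

variable (ι : Type) (r : ℕ)

/-- reduced words of length at most `r` -/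
def Wd : Type := {l : List ι // l.length ≤ r ∧ l.IsChain (· ≠ ·)}

variable {ι} {r}

theorem wd_ext {a b : Wd ι r} (h : a.1 = b.1) : a = b := Subtype.ext h

instance [Finite ι] : Finite (Wd ι r) := by
  have h1 : Set.Finite {l : List ι | l.length ≤ r} := List.finite_length_le ι r
  have h2 : Set.Finite {l : List ι | l.length ≤ r ∧ l.IsChain (· ≠ ·)} :=
    h1.subset fun l hl => hl.1
  exact h2.to_subtype

open Classical in
/-- the involution of the generator `i` on words -/
noncomputable def sw (r : ℕ) (i : ι) (l : List ι) : List ι :=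
  if l.head? = some i then l.tail else if l.length < r then i :: l else l

theorem sw_mem (i : ι) (l : List ι) (h : l.length ≤ r ∧ l.IsChain (· ≠ ·)) :
    (sw r i l).length ≤ r ∧ (sw r i l).IsChain (· ≠ ·) := by
  unfold sw
  split_ifs with h1 h2
  · constructor
    · have := List.length_tail (l := l); omega
    · exact h.2.tail
  · constructor
    · simp; omega
    · rw [List.isChain_cons]
      refine ⟨?_, h.2⟩
      intro y hy hiy
      subst hiy
      exact h1 hy
  · exact h

theorem sw_sw (i : ι) (l : List ι) (h : l.length ≤ r ∧ l.IsChain (· ≠ ·)) :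
    sw r i (sw r i l) = l := by
  classical
  unfold sw
  by_cases h1 : l.head? = some i
  · obtain ⟨l', rfl⟩ : ∃ l', l = i :: l' := by
      cases l with
      | nil => simp at h1
      | cons a t => simp at h1; exact ⟨t, by rw [h1]⟩
    have h3 : ¬ (l'.head? = some i) := by
      intro h4
      have := h.2
      rw [List.isChain_cons] at this
      exact this.1 i h4 rfl
    have h4 : l'.length < r := by have := h.1; simp at this; omega
    simp [h3, h4]
  · by_cases h2 : l.length < r
    · simp [h1, h2]
    · simp [h1, h2]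

/-- the permutation of the generator `i` -/
noncomputable def sp (r : ℕ) (i : ι) : Equiv.Perm (Wd ι r) where
  toFun w := ⟨sw r i w.1, sw_mem i w.1 w.2⟩
  invFun w := ⟨sw r i w.1, sw_mem i w.1 w.2⟩
  left_inv w := wd_ext (sw_sw i w.1 w.2)
  right_inv w := wd_ext (sw_sw i w.1 w.2)

theorem sp_sp (i : ι) : sp r i * sp r i = 1 := by
  ext w
  apply wd_ext
  exact sw_sw i w.1 w.2

theorem sp_sp_mul (i : ι) (σ : Equiv.Perm (Wd ι r)) : sp r i * (sp r i * σ) = σ := by
  rw [← mul_assoc, sp_sp, one_mul]

/-- the empty word -/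
def e0 : Wd ι r := ⟨[], by simp, by simp⟩

/-- action of a word -/
noncomputable def act (r : ℕ) : List ι → Equiv.Perm (Wd ι r)
  | [] => 1
  | i :: l => act r l * sp r i

theorem act_apply (l : List ι) : ∀ (u : Wd ι r), (l.reverse ++ u.1).IsChain (· ≠ ·) →
    (l.reverse ++ u.1).length ≤ r → ((act r l) u).1 = l.reverse ++ u.1 := by
  induction l with
  | nil => intro u _ _; simp [act]
  | cons i l ih =>
    intro u h1 h2
    have h3 : (sp r i u).1 = i :: u.1 := by
      show sw r i u.1 = i :: u.1
      unfold sw
      have h4 : ¬ (u.1.head? = some i) := by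
        intro h5
        rw [List.reverse_cons, List.append_assoc] at h1
        have h6 := h1.right_of_append
        simp only [List.singleton_append] at h6
        rw [List.isChain_cons] at h6
        exact h6.1 i h5 rfl
      have h5 : u.1.length < r := by simp at h2; omega
      simp [h4, h5]
    have h4 : ((act r l) (sp r i u)).1 = l.reverse ++ (sp r i u).1 := by
      apply ih
      · rw [h3]
        rw [List.reverse_cons, List.append_assoc] at h1
        simpa using h1
      · rw [h3]; simp at h2 ⊢; omega
    show ((act r l) (sp r i u)).1 = _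
    rw [h4, h3]
    simp

theorem act_ne_one (l : List ι) (h : l.IsChain (· ≠ ·)) (h1 : l.length ≤ r) (h2 : l ≠ []) :
    act r l ≠ 1 := by
  intro h3
  have h4 := act_apply (r := r) l e0 (by
    simp only [e0, List.append_nil]
    rw [List.isChain_reverse]
    exact h.imp fun a b hab => hab.symm) (by simpa [e0] using h1)
  rw [h3] at h4
  have h5 : ([] : List ι) = l.reverse := by
    have h6 : ([] : List ι) = l.reverse ++ [] := h4
    simpa using h6
  exact h2 (List.reverse_eq_nil_iff.mp h5.symm)

end Tree

/-! ## The regular graph -/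

section Reg

variable {V : Type} [Fintype V] (G : SimpleGraph V) (D r : ℕ)

/-- generators: one for each missing neighbour of each vertex -/
abbrev Gen : Type := Σ v : V, Fin (D - (G.neighborSet v).ncard)

/-- vertices of the regular graph -/
abbrev VV : Type := V × Equiv.Perm (Wd (Gen G D) r)

/-- the regular graph -/
noncomputable def RG (hr : 1 ≤ r) : SimpleGraph (VV G D r) where
  Adj a b := (G.Adj a.1 b.1 ∧ a.2 = b.2) ∨
    (a.1 = b.1 ∧ ∃ i : Gen G D, i.1 = a.1 ∧ b.2 = sp r i * a.2)
  symm := ⟨by
    intro a b h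
    rcases h with ⟨h1, h2⟩ | ⟨h1, i, h2, h3⟩
    · exact Or.inl ⟨h1.symm, h2.symm⟩
    · exact Or.inr ⟨h1.symm, i, h2.trans h1, by rw [h3, sp_sp_mul]⟩⟩
  loopless := ⟨by
    intro a h
    rcases h with ⟨h1, h2⟩ | ⟨h1, i, h2, h3⟩
    · exact G.loopless.irrefl _ h1
    · have h4 : sp r i = 1 := by
        have : sp r i * a.2 = 1 * a.2 := by rw [one_mul]; exact h3.symm
        exact mul_right_cancel this
      have h5 := act_ne_one (r := r) [i] (by simp) (by simpa using hr) (by simp)
      apply h5
      simp [act, h4]⟩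

variable {G D r}

theorem sp_inj (hr : 1 ≤ r) {ι : Type} {i j : ι} (h : sp r i = sp r j) : i = j := by
  have h1 : ((sp r i) e0).1 = ((sp r j) e0).1 := by rw [h]
  have h2 : ∀ k : ι, ((sp r k) e0).1 = [k] := by
    intro k
    show sw r k [] = [k]
    unfold sw
    have : 0 < r := hr
    simp [this]
  rw [h2, h2] at h1
  simpa using h1

theorem RG_nbr (hr : 1 ≤ r) (hd : ∀ v, (G.neighborSet v).ncard ≤ D) (a : VV G D r) :
    ((RG G D r hr).neighborSet a).ncard = D := by
  classical
  have h1 : (RG G D r hr).neighborSet a = (fun w => ((w, a.2) : VV G D r)) '' (G.neighborSet a.1) ∪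
      Set.range (fun j : Fin (D - (G.neighborSet a.1).ncard) =>
        ((a.1, sp r (⟨a.1, j⟩ : Gen G D) * a.2) : VV G D r)) := by
    ext b
    simp only [SimpleGraph.mem_neighborSet, Set.mem_union, Set.mem_image, Set.mem_range]
    constructor
    · rintro (⟨h1, h2⟩ | ⟨h1, i, h2, h3⟩)
      · exact Or.inl ⟨b.1, h1, by rw [h2]⟩
      · right
        obtain ⟨v, j⟩ := i
        simp only at h2
        subst h2
        exact ⟨j, by rw [← h3, h1]⟩
    · rintro (⟨w, h1, h2⟩ | ⟨j, h1⟩)
      · subst h2
        exact Or.inl ⟨h1, rfl⟩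
      · subst h1
        exact Or.inr ⟨rfl, ⟨a.1, j⟩, rfl, rfl⟩
  rw [h1, Set.ncard_union_eq]
  · rw [Set.ncard_image_of_injective, Set.ncard_range_of_injective]
    · simp
      have := hd a.1
      omega
    · intro j j' hj
      simp only [Prod.mk.injEq, true_and] at hj
      have h2 := sp_inj hr (mul_right_cancel hj)
      simpa using h2
    · intro w w' hw
      simpa using hw
  · rw [Set.disjoint_left]
    rintro b ⟨w, h2, h3⟩ ⟨j, h4⟩
    subst h3
    simp only [Prod.mk.injEq] at h4
    rw [SimpleGraph.mem_neighborSet, ← h4.1] at h2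
    exact G.loopless.irrefl _ h2

/-- information on a path -/
theorem path_word (hr : 1 ≤ r) {a b : VV G D r} (p : (RG G D r hr).Walk a b) (hp : p.IsPath) :
    ∃ l : List (Gen G D), l.IsChain (· ≠ ·) ∧ l.length ≤ p.length ∧ b.2 = act r l * a.2 ∧
      (l = [] → ∃ q : G.Walk a.1 b.1, q.length = p.length ∧ q.support = p.support.map Prod.fst ∧
        q.edges = p.edges.map (Sym2.map Prod.fst) ∧ ∀ x ∈ p.support, x.2 = a.2) ∧
      (∀ i l', l = i :: l' →
        s((i.1, a.2), ((i.1, sp r i * a.2) : VV G D r)) ∈ p.edges) := by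
  induction p with
  | nil =>
    refine ⟨[], by simp, by simp, by simp [act], ?_, ?_⟩
    · intro _
      exact ⟨SimpleGraph.Walk.nil, by simp⟩
    · intro i l' h
      exact absurd h (by simp)
  | @cons a a' b h p ih =>
    rw [SimpleGraph.Walk.cons_isPath_iff] at hp
    obtain ⟨l, hl1, hl2, hl3, hl4, hl5⟩ := ih hp.1
    have hcase : (G.Adj a.1 a'.1 ∧ a.2 = a'.2) ∨
      (a.1 = a'.1 ∧ ∃ i : Gen G D, i.1 = a.1 ∧ a'.2 = sp r i * a.2) := h
    rcases hcase with ⟨h1, h2⟩ | ⟨h1, i, h2, h3⟩
    · refine ⟨l, hl1, ?_, ?_, ?_, ?_⟩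
      · rw [SimpleGraph.Walk.length_cons]; omega
      · rw [hl3, h2]
      · intro hl
        obtain ⟨q, hq1, hq2, hq3, hq4⟩ := hl4 hl
        refine ⟨SimpleGraph.Walk.cons h1 q, ?_, ?_, ?_, ?_⟩
        · simp [hq1]
        · simp [hq2]
        · simp [hq3]
        · intro x hx
          rw [SimpleGraph.Walk.support_cons, List.mem_cons] at hx
          rcases hx with rfl | hx
          · rfl
          · rw [hq4 x hx, h2]
      · intro i l' hl
        rw [SimpleGraph.Walk.edges_cons, List.mem_cons]
        right
        rw [h2]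
        exact hl5 i l' hl
    · refine ⟨i :: l, ?_, ?_, ?_, ?_, ?_⟩
      · rw [List.isChain_cons]
        refine ⟨?_, hl1⟩
        intro j hj hij
        subst hij
        obtain ⟨l', rfl⟩ : ∃ l', l = i :: l' := by
          cases l with
          | nil => simp at hj
          | cons c t => simp at hj; exact ⟨t, by rw [hj]⟩
        have h4 := hl5 i l' rfl
        rw [h3, sp_sp_mul] at h4
        apply hp.2
        have h5 : a = ((i.1, a.2) : VV G D r) := by rw [h2]
        rw [h5]
        exact SimpleGraph.Walk.snd_mem_support_of_mem_edges _ h4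
      · rw [SimpleGraph.Walk.length_cons]; simp; omega
      · rw [hl3, h3, act, mul_assoc]
      · intro h; exact absurd h (by simp)
      · intro j l' hj
        rw [SimpleGraph.Walk.edges_cons, List.mem_cons]
        left
        have hji : j = i := by simpa using (List.cons.inj hj).1.symm
        subst hji
        rw [← h3, h2]
        rw [show ((a.1, a'.2) : VV G D r) = a' by rw [h1]]

/-- the girth of the regular graph -/
theorem RG_girth (hr : 1 ≤ r) (g : ℕ) (hg : (g : ℕ∞) ≤ G.egirth) (hgr : g ≤ r) :
    (g : ℕ∞) ≤ (RG G D r hr).egirth := by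
  rw [SimpleGraph.le_egirth]
  intro a w hw
  by_contra hlt
  have hlt : w.length < g := by
    rw [not_le] at hlt
    exact_mod_cast hlt
  cases w with
  | nil => exact absurd hw (by simp)
  | @cons _ b _ h p =>
    rw [SimpleGraph.Walk.cons_isCycle_iff] at hw
    obtain ⟨hp, he⟩ := hw
    obtain ⟨l, hl1, hl2, hl3, hl4, hl5⟩ := path_word hr p hp
    rw [SimpleGraph.Walk.length_cons] at hlt
    have hcase : (G.Adj a.1 b.1 ∧ a.2 = b.2) ∨
      (a.1 = b.1 ∧ ∃ i : Gen G D, i.1 = a.1 ∧ b.2 = sp r i * a.2) := h
    rcases hcase with ⟨h1, h2⟩ | ⟨h1, i, h2, h3⟩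
    · by_cases hl : l = []
      · obtain ⟨q, hq1, hq2, hq3, hq4⟩ := hl4 hl
        have hc : (SimpleGraph.Walk.cons h1 q).IsCycle := by
          rw [SimpleGraph.Walk.cons_isCycle_iff]
          constructor
          · rw [SimpleGraph.Walk.isPath_def, hq2]
            refine List.Nodup.map_on ?_ hp.support_nodup
            intro x hx y hy hxy
            exact Prod.ext hxy (by rw [hq4 x hx, hq4 y hy])
          · intro hq
            rw [hq3, List.mem_map] at hq
            obtain ⟨e, he1, he2⟩ := hq
            apply he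
            revert he1 he2
            refine Sym2.inductionOn e ?_
            intro x y he1 he2
            have hx := hq4 x (SimpleGraph.Walk.fst_mem_support_of_mem_edges _ he1)
            have hy := hq4 y (SimpleGraph.Walk.snd_mem_support_of_mem_edges _ he1)
            rw [Sym2.map_mk, Sym2.eq_iff] at he2
            rcases he2 with ⟨h4, h5⟩ | ⟨h4, h5⟩
            · have hxa : x = a := Prod.ext h4 (by rw [hx, h2])
              have hyb : y = b := Prod.ext h5 hy
              have he3 : s(x, y) = s(a, b) := by rw [hxa, hyb]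
              rw [← he3]; exact he1
            · have hxb : x = b := Prod.ext h4 hx
              have hya : y = a := Prod.ext h5 (by rw [hy, h2])
              have he3 : s(x, y) = s(a, b) := by rw [hxb, hya, Sym2.eq_swap]
              rw [← he3]; exact he1
        have h4 := (SimpleGraph.le_egirth.mp hg) _ _ hc
        rw [SimpleGraph.Walk.length_cons, hq1] at h4
        have h5 : g ≤ p.length + 1 := by exact_mod_cast h4
        omega
      · apply act_ne_one (r := r) l hl1 (by omega) hl
        have : act r l * b.2 = 1 * b.2 := by rw [← hl3, h2, one_mul]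
        exact mul_right_cancel this
    · have h4 : (i :: l).IsChain (· ≠ ·) := by
        rw [List.isChain_cons]
        refine ⟨?_, hl1⟩
        intro j hj hij
        subst hij
        obtain ⟨l', rfl⟩ : ∃ l', l = i :: l' := by
          cases l with
          | nil => simp at hj
          | cons c t => simp at hj; exact ⟨t, by rw [hj]⟩
        have h4 := hl5 i l' rfl
        rw [h3, sp_sp_mul] at h4
        apply he
        have h5 : a = ((i.1, a.2) : VV G D r) := by rw [h2]
        have h6 : b = ((i.1, sp r i * a.2) : VV G D r) := by rw [h2, ← h3, h1]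
        have h7 : s(((i.1, sp r i * a.2) : VV G D r), ((i.1, a.2) : VV G D r)) = s(a, b) := by
          rw [← h5, ← h6, Sym2.eq_swap]
        rw [← h7]; exact h4
      apply act_ne_one (r := r) (i :: l) h4 (by simp; omega) (by simp)
      have : act r (i :: l) * a.2 = 1 * a.2 := by
        rw [act, mul_assoc, ← h3, ← hl3, one_mul]
      exact mul_right_cancel this

end Reg

/-- embedding into a regular graph -/
theorem embed (D : ℕ) (V : Type) [Fintype V] (G : SimpleGraph V)
    (hd : ∀ v, (G.neighborSet v).ncard ≤ D) (g : ℕ) (hg : (g : ℕ∞) ≤ G.egirth) :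
    ∃ (W : Type) (_ : Fintype W) (H : SimpleGraph W) (_ : G →g H),
      (∀ v, (H.neighborSet v).ncard = D) ∧ (g : ℕ∞) ≤ H.egirth := by
  classical
  have hr : 1 ≤ g + 1 := by omega
  haveI : Finite (Wd (Gen G D) (g + 1)) := inferInstance
  haveI : Finite (VV G D (g + 1)) := inferInstance
  refine ⟨VV G D (g + 1), Fintype.ofFinite _, RG G D (g + 1) hr, ⟨fun v => (v, 1), ?_⟩, ?_, ?_⟩
  · intro v w h
    exact Or.inl ⟨h, rfl⟩
  · exact RG_nbr hr hd
  · exact RG_girth hr g hg (by omega)

/-- removal of a maximal independent set -/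
theorem peel (k : ℕ) (V : Type) [Fintype V] (G : SimpleGraph V)
    (hd : ∀ v, (G.neighborSet v).ncard ≤ k + 1) (c : ℕ)
    (h : ∀ H : SimpleGraph V, H ≤ G → (∀ v, (H.neighborSet v).ncard ≤ k) → H.Colorable c) :
    G.Colorable (c + 1) := by
  classical
  obtain ⟨I, hI⟩ : ∃ I : Set V, Maximal (fun I : Set V => ∀ v ∈ I, ∀ w ∈ I, ¬ G.Adj v w) I := by
    have hfin : {I : Set V | ∀ v ∈ I, ∀ w ∈ I, ¬ G.Adj v w}.Finite := Set.toFinite _
    obtain ⟨I, -, hI⟩ := hfin.exists_le_maximal (a := ∅) (by simp)
    exact ⟨I, hI⟩
  have hdom : ∀ v, v ∉ I → ∃ w ∈ I, G.Adj v w := by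
    intro v hv
    by_contra hcon
    push Not at hcon
    have h1 : ∀ x ∈ insert v I, ∀ y ∈ insert v I, ¬ G.Adj x y := by
      intro x hx y hy
      rcases hx with rfl | hx
      · rcases hy with rfl | hy
        · exact G.loopless.irrefl _
        · exact hcon y hy
      · rcases hy with rfl | hy
        · intro h2; exact hcon x hx h2.symm
        · exact hI.prop x hx y hy
    have h2 := hI.le_of_ge (y := insert v I) h1 (Set.subset_insert v I)
    exact hv (h2 (Set.mem_insert v I))
  let H : SimpleGraph V :=
    { Adj := fun v w => G.Adj v w ∧ v ∉ I ∧ w ∉ I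
      symm := ⟨fun v w h => ⟨h.1.symm, h.2.2, h.2.1⟩⟩
      loopless := ⟨fun v h => G.loopless.irrefl _ h.1⟩ }
  have hH : ∀ v, (H.neighborSet v).ncard ≤ k := by
    intro v
    by_cases hv : v ∈ I
    · have : H.neighborSet v = ∅ := by
        ext w
        simp only [SimpleGraph.mem_neighborSet, Set.mem_empty_iff_false, iff_false]
        intro h; exact h.2.1 hv
      rw [this]; simp
    · obtain ⟨w, hw1, hw2⟩ := hdom v hv
      have h1 : H.neighborSet v ⊂ G.neighborSet v := by
        rw [Set.ssubset_iff_of_subset (fun x hx => hx.1)]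
        exact ⟨w, hw2, fun h => h.2.2 hw1⟩
      have h2 := Set.ncard_lt_ncard h1 (Set.toFinite _)
      have := hd v
      omega
  obtain ⟨C⟩ := h H (fun v w h => h.1) hH
  refine ⟨SimpleGraph.Coloring.mk (fun v => if v ∈ I then Fin.last c else (C v).castSucc) ?_⟩
  intro v w hvw
  by_cases hv : v ∈ I
  · have hw : w ∉ I := fun hw => hI.prop v hv w hw hvw
    simp only [hv, hw, if_true, if_false]
    exact (Fin.castSucc_lt_last _).ne'
  · by_cases hw : w ∈ I
    · simp only [hv, hw, if_true, if_false]
      exact (Fin.castSucc_lt_last _).ne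
    · simp only [hv, hw, if_false]
      intro h
      exact C.valid (show H.Adj v w from ⟨hvw, hv, hw⟩) (Fin.castSucc_injective _ h)

/-- all degrees from degree four -/
theorem emb (h : Pool.Agent.H958R2.GK.St_FIN) : ∀ k, 4 ≤ k → ∃ g : ℕ,
    ∀ (V : Type) [Fintype V] (G : SimpleGraph V), (∀ v, (G.neighborSet v).ncard ≤ k) →
      (g : ℕ∞) ≤ G.egirth → G.Colorable (k - 1) := by
  obtain ⟨g, hg⟩ := h
  have key : ∀ k, ∀ (V : Type) [Fintype V] (G : SimpleGraph V),
      (∀ v, (G.neighborSet v).ncard ≤ k + 4) → (g : ℕ∞) ≤ G.egirth → G.Colorable (k + 3) := by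
    intro k
    induction k with
    | zero =>
      intro V _ G hd hG
      obtain ⟨W, hW, H, f, h1, h2⟩ := embed 4 V G hd g hG
      exact (hg W H h1 h2).of_hom f
    | succ k ih =>
      intro V _ G hd hG
      refine peel (k + 4) V G hd (k + 3) ?_
      intro H hH hH2
      exact ih V H hH2 (hG.trans (SimpleGraph.egirth_anti hH))
  intro k hk
  refine ⟨g, ?_⟩
  intro V _ G hd hG
  obtain ⟨j, rfl⟩ : ∃ j, k = j + 4 := ⟨k - 4, by omega⟩
  exact key j V G hd hG

end Pool.Agent.H195.GK
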